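import Pool.Agent.H29.DW.Targets
import Pool.Agent.H61.GLB.TF

/-!
# (CT): the mean values of the pair counts
-/

set_option autoImplicit false

open NumberField NumberField.InfinitePlace NumberField.Units
  NumberField.Units.dirichletUnitTheorem MeasureTheory Set Filter Complex
open scoped nonZeroDivisors ENNReal

namespace Pool.Agent.H59.DW

open Pool.Agent.H25.HK Pool.Agent.H23.LB Pool.Agent.H23.LC Pool.Agent.H29.DW
open Pool.Agent.H28.RC (Rep ft idl)

theorem lint4 {α : Type*} [MeasurableSpace α] (μ : Measure α) (c : ℝ≥0∞) {f1 f2 f3 f4 : α → ℝ≥0∞}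
    (h1 : Measurable f1) (h2 : Measurable f2) (h3 : Measurable f3) (h4 : Measurable f4) :
    ∫⁻ z, c * (f1 z + f2 z + f3 z + f4 z) ∂μ =
      c * (∫⁻ z, f1 z ∂μ + ∫⁻ z, f2 z ∂μ + ∫⁻ z, f3 z ∂μ + ∫⁻ z, f4 z ∂μ) := by
  have e1 := lintegral_const_mul (μ := μ) c (((h1.add h2).add h3).add h4)
  have e2 := lintegral_add_right (μ := μ) (fun z => f1 z + f2 z + f3 z) h4
  have e3 := lintegral_add_right (μ := μ) (fun z => f1 z + f2 z) h3
  have e4 := lintegral_add_right (μ := μ) f1 h2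
  simp only [Pi.add_apply] at e1 e2 e3 e4
  rw [e1, e2, e3, e4]

section

variable {K : Type} [Field K] [NumberField K]

/-- half of the trace of `a` -/
noncomputable def sa (a : InfinitePlace K → ℝ) : ℝ := (∑ v, (v.mult : ℝ) * a v) / 2

open scoped Classical in
/-- the part of `a` in the logarithmic space -/
noncomputable def za (a : InfinitePlace K → ℝ) : logSpace K := fun w =>
  (w.1.mult : ℝ) * (a w.1 - 2 * sa a / Module.finrank ℚ K) / 2

theorem yc_za (a : InfinitePlace K → ℝ) : yc K (sa a) (za a) = a := by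
  classical
  have h1 := (Pool.Agent.H87.HK.yc_main K).1 (sa a) (za a)
  have hne : ∀ v : InfinitePlace K, v ≠ w₀ → yc K (sa a) (za a) v = a v := by
    intro v hv
    have hm : (v.mult : ℝ) ≠ 0 := by
      have := v.mult_pos
      exact_mod_cast this.ne'
    unfold yc za
    rw [dif_neg hv]
    field_simp
    ring
  funext v
  by_cases hv : v = w₀
  · subst hv
    have h2 : ∑ v : InfinitePlace K, (v.mult : ℝ) * yc K (sa a) (za a) v =
        ∑ v : InfinitePlace K, (v.mult : ℝ) * a v := by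
      rw [h1]
      unfold sa
      ring
    rw [Fintype.sum_eq_add_sum_subtype_ne _ w₀, Fintype.sum_eq_add_sum_subtype_ne (fun v =>
      (v.mult : ℝ) * a v) w₀] at h2
    have h3 : ∑ v : {w : InfinitePlace K // w ≠ w₀}, (v.1.mult : ℝ) * yc K (sa a) (za a) v.1 =
        ∑ v : {w : InfinitePlace K // w ≠ w₀}, (v.1.mult : ℝ) * a v.1 :=
      Finset.sum_congr rfl fun v _ => by rw [hne v.1 v.2]
    rw [h3] at h2
    have h4 := add_right_cancel h2
    have hm : ((w₀ : InfinitePlace K).mult : ℝ) ≠ 0 := by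
      have := (w₀ : InfinitePlace K).mult_pos
      exact_mod_cast this.ne'
    exact mul_left_cancel₀ hm h4
  · exact hne v hv

theorem aN_pos {M : FI K} (hM : M ≠ 0) : (0 : ℝ) < (FractionalIdeal.absNorm M : ℝ) := by
  have h1 : FractionalIdeal.absNorm M ≠ 0 := fun h =>
    hM (FractionalIdeal.absNorm_eq_zero_iff.1 h)
  have h2 := FractionalIdeal.absNorm_nonneg M
  exact_mod_cast lt_of_le_of_ne h2 h1.symm

theorem Nf_pos {j : Ideal (𝓞 K)} (hj : j ≠ ⊥) : 0 < Nf K j := by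
  have h : Ideal.absNorm j ≠ 0 := fun h => hj (Ideal.absNorm_eq_zero_iff.1 h)
  unfold Nf
  exact_mod_cast Nat.pos_of_ne_zero h

theorem sd_pos : 0 < Real.sqrt |(discr K : ℝ)| :=
  Real.sqrt_pos.2 (abs_pos.2 (by exact_mod_cast discr_ne_zero K))

theorem VV_pos {j : Ideal (𝓞 K)} (hj : j ≠ ⊥) (a : InfinitePlace K → ℝ) (τ : ℝ) :
    0 < VV K j a τ := by
  have h1 := Nf_pos hj
  have h2 := sd_pos (K := K)
  unfold VV
  positivity

/-- the theta function in the normalised form -/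
theorem th_FT {j : Ideal (𝓞 K)} (hj : j ≠ ⊥) {M : FI K} (hM : M ≠ 0)
    (a : InfinitePlace K → ℝ) (τ : ℝ) (z : logSpace K) :
    th K ((j : FI K) * M) (fun v => yM K M τ z v + a v) =
      FT K ((j : FI K) * M) (z + za a) (1 / VV K j a τ) := by
  have hd := sd_pos (K := K)
  have hN := aN_pos hM
  have hj0 := Nf_pos hj
  have hcv : cv K ((j : FI K) * M) = Real.sqrt |(discr K : ℝ)| *
      (Nf K j * (FractionalIdeal.absNorm M : ℝ)) := by
    rw [cv, map_mul, FractionalIdeal.coeIdeal_absNorm]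
    unfold Nf
    push_cast
    rfl
  have e0 : 1 / VV K j a τ = Real.exp (τ + sa a) * (Real.sqrt |(discr K : ℝ)| * Nf K j) := by
    have e1 : -τ - (∑ v, (v.mult : ℝ) * a v) / 2 = -(τ + sa a) := by
      unfold sa
      ring
    unfold VV
    rw [e1, Real.exp_neg]
    field_simp
  have h1 : Real.log (1 / VV K j a τ / cv K ((j : FI K) * M)) =
      (τ - Real.log (FractionalIdeal.absNorm M : ℝ)) + sa a := by
    rw [e0, hcv, show Real.exp (τ + sa a) * (Real.sqrt |(discr K : ℝ)| * Nf K j) /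
      (Real.sqrt |(discr K : ℝ)| * (Nf K j * (FractionalIdeal.absNorm M : ℝ))) =
      Real.exp (τ + sa a) / (FractionalIdeal.absNorm M : ℝ) by field_simp,
      Real.log_div (Real.exp_pos _).ne' hN.ne', Real.log_exp]
    ring
  unfold FT
  rw [h1]
  congr 1
  funext v
  rw [Pool.Agent.H61.GLB.yc_add, yc_za]
  rfl

theorem AK_nonneg (hFP : Pool.Agent.H23.LB.T_FP) (κ : ℝ) {M : FI K} (hM : M ≠ 0)
    (z : logSpace K) : 0 ≤ AK K κ M z := by
  unfold AK
  refine setIntegral_nonneg measurableSet_Ioi fun T hT => ?_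
  have h := ((hFP K M hM).2.2.1 z T hT).1
  exact mul_nonneg (by linarith) (Real.rpow_nonneg (le_of_lt hT) κ)

/-- one value is bounded by the integral -/
theorem FT_le (hFP : Pool.Agent.H23.LB.T_FP) {κ : ℝ} (hκ : 0 < κ) (hκ1 : κ ≤ 1) {M : FI K}
    (hM : M ≠ 0) (z : logSpace K) {V : ℝ} (hV : 0 < V) :
    FT K M z (1 / V) - 1 ≤ 2 * V ^ (1 + κ) * AK K κ M z := by
  have hF := hFP K M hM
  have hint := (hF.2.2.2.2.2 κ hκ).2.2 z
  have hV' : 0 < 1 / V := by positivity
  have hnn : 0 ≤ᵐ[volume.restrict (Ioi (0 : ℝ))] fun T => (FT K M z T - 1) * T ^ κ := by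
    refine (ae_restrict_iff' measurableSet_Ioi).mpr (Eventually.of_forall fun T hT => ?_)
    have h := (hF.2.2.1 z T hT).1
    exact mul_nonneg (by linarith) (Real.rpow_nonneg (le_of_lt hT) κ)
  have hsub : Ioc (0 : ℝ) (1 / V) ⊆ Ioi 0 := Ioc_subset_Ioi_self
  have h1 : ∫ T in Ioc (0 : ℝ) (1 / V), (FT K M z T - 1) * T ^ κ ≤ AK K κ M z :=
    setIntegral_mono_set hint hnn hsub.eventuallyLE
  have hI : IntervalIntegrable (fun T : ℝ => T ^ κ) volume 0 (1 / V) :=
    intervalIntegral.intervalIntegrable_rpow' (by linarith)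
  have hI' : IntegrableOn (fun T : ℝ => T ^ κ) (Ioc 0 (1 / V)) := by
    rwa [intervalIntegrable_iff_integrableOn_Ioc_of_le hV'.le] at hI
  have h2 : ∫ T in Ioc (0 : ℝ) (1 / V), (FT K M z (1 / V) - 1) * T ^ κ =
      (FT K M z (1 / V) - 1) * ((1 / V) ^ (κ + 1) / (κ + 1)) := by
    rw [integral_const_mul, ← intervalIntegral.integral_of_le hV'.le,
      integral_rpow (Or.inl (by linarith)), Real.zero_rpow (by linarith), sub_zero]
  have h3 : (FT K M z (1 / V) - 1) * ((1 / V) ^ (κ + 1) / (κ + 1)) ≤ AK K κ M z := by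
    rw [← h2]
    refine le_trans ?_ h1
    refine setIntegral_mono_on (hI'.const_mul _) (hint.mono_set hsub) measurableSet_Ioc ?_
    intro T hT
    have h4 : FT K M z (1 / V) ≤ FT K M z T := (hF.2.2.2.1 z) hT.1 hV' hT.2
    exact mul_le_mul_of_nonneg_right (by linarith) (Real.rpow_nonneg hT.1.le _)
  have hVp : 0 < V ^ (1 + κ) := Real.rpow_pos_of_pos hV _
  have h5 : (1 / V) ^ (κ + 1) = (V ^ (1 + κ))⁻¹ := by
    rw [one_div, Real.inv_rpow hV.le, add_comm κ 1]
  rw [h5] at h3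
  have h6 := (hF.2.2.1 z (1 / V) hV').1
  have h7 : (FT K M z (1 / V) - 1) ≤ (κ + 1) * V ^ (1 + κ) * AK K κ M z := by
    have h8 : (κ + 1) * V ^ (1 + κ) * ((FT K M z (1 / V) - 1) *
        ((V ^ (1 + κ))⁻¹ / (κ + 1))) = FT K M z (1 / V) - 1 := by
      field_simp
    rw [← h8]
    exact mul_le_mul_of_nonneg_left h3 (by positivity)
  have h9 := AK_nonneg hFP κ hM z
  refine h7.trans ?_
  refine mul_le_mul_of_nonneg_right ?_ h9
  refine mul_le_mul_of_nonneg_right ?_ hVp.le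
  linarith

open scoped Classical in
theorem AK_int (hFD : Pool.Agent.H25.HK.T_FD) (hFP : Pool.Agent.H23.LB.T_FP) {κ : ℝ}
    (hκ : 0 < κ) {M : FI K} (hM : M ≠ 0) :
    IntegrableOn (fun z => AK K κ M z) (Fd K) ∧ IntegrableOn (fun z => AK K κ M (-z)) (Fd K) := by
  obtain ⟨hm, ⟨B, hB⟩, -⟩ := hFD K
  have hc : Continuous (fun z => AK K κ M z) := ((hFP K M hM).2.2.2.2.2 κ hκ).1
  have hsub : Fd K ⊆ Metric.closedBall (0 : logSpace K) |B| := by
    intro z hz
    rw [mem_closedBall_zero_iff, pi_norm_le_iff_of_nonneg (abs_nonneg B)]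
    intro w
    rw [Real.norm_eq_abs]
    exact (hB z hz w).trans (le_abs_self B)
  have hK : IsCompact (Metric.closedBall (0 : logSpace K) |B|) := isCompact_closedBall _ _
  exact ⟨(hc.continuousOn.integrableOn_compact hK).mono_set hsub,
    ((hc.comp continuous_neg).continuousOn.integrableOn_compact hK).mono_set hsub⟩

open scoped Classical in
/-- translations -/
theorem lint_AK (hFD : Pool.Agent.H25.HK.T_FD) (hFP : Pool.Agent.H23.LB.T_FP) {κ : ℝ}
    (hκ : 0 < κ) {M : FI K} (hM : M ≠ 0) (w : logSpace K) :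
    ∫⁻ z in Fd K, ENNReal.ofReal (AK K κ M (z + w)) = ENNReal.ofReal (∫ z in Fd K, AK K κ M z) ∧
    ∫⁻ z in Fd K, ENNReal.ofReal (AK K κ M (-(z + w))) =
      ENNReal.ofReal (∫ z in Fd K, AK K κ M (-z)) := by
  have hper := ((hFP K M hM).2.2.2.2.2 κ hκ).2.1
  have hper' : ∀ z : logSpace K, ∀ l ∈ unitLattice K, AK K κ M (-(z + l)) = AK K κ M (-z) := by
    intro z l hl
    rw [neg_add]
    exact hper (-z) (-l) (neg_mem hl)
  obtain ⟨i1, i2⟩ := AK_int hFD hFP hκ hM
  constructor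
  · rw [Pool.Agent.H61.GLB.Fd_trans K (fun z => ENNReal.ofReal (AK K κ M z))
      (fun z l hl => by rw [hper z l hl]) w]
    exact (ofReal_integral_eq_lintegral_ofReal i1
      (Eventually.of_forall fun z => AK_nonneg hFP κ hM z)).symm
  · rw [Pool.Agent.H61.GLB.Fd_trans K (fun z => ENNReal.ofReal (AK K κ M (-z)))
      (fun z l hl => by rw [hper' z l hl]) w]
    exact (ofReal_integral_eq_lintegral_ofReal i2
      (Eventually.of_forall fun z => AK_nonneg hFP κ hM (-z))).symm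

theorem AK_meas (hFP : Pool.Agent.H23.LB.T_FP) {κ : ℝ} (hκ : 0 < κ) {M : FI K} (hM : M ≠ 0)
    (w : logSpace K) : Measurable (fun z => ENNReal.ofReal (AK K κ M (z + w))) ∧
      Measurable (fun z => ENNReal.ofReal (AK K κ M (-(z + w)))) := by
  have hc : Continuous (fun z => AK K κ M z) := ((hFP K M hM).2.2.2.2.2 κ hκ).1
  constructor
  · exact ENNReal.measurable_ofReal.comp (hc.comp (continuous_id.add continuous_const)).measurable
  · exact ENNReal.measurable_ofReal.comp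
      (hc.comp (continuous_id.add continuous_const).neg).measurable

end

theorem pf_CT (hPT : V_PT) (hAK : U_AK) (hRR : Pool.Agent.H23.LB.T_RR)
    (hFP : Pool.Agent.H23.LB.T_FP) (hFD : Pool.Agent.H25.HK.T_FD) : V_CT := by
  classical
  intro n hn κ hκ hκ1
  obtain ⟨C1, hC1, hP⟩ := hPT n hn κ hκ hκ1
  obtain ⟨C2, B, hC2, hB, hA⟩ := hAK n
  have hkB : 0 ≤ κ ^ (-B) := Real.rpow_nonneg hκ.le _
  refine ⟨4 * C1 * (C2 * κ ^ (-B)) + 2 * (C2 * κ ^ (-B)), by positivity, ?_⟩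
  intro K _ _ hK ι _ M hM j₁ j₂ a b τ hj₁ hj₂
  have h1M : Reps K (fun c => (j₁ : FI K) * M c) := (hRR K ι M hM).1 j₁ hj₁
  have h2M : Reps K (fun c => (j₂ : FI K) * M c) := (hRR K ι M hM).1 j₂ hj₂
  have hd1M : Reps K (fun c => du K ((j₁ : FI K) * M c)) :=
    (hRR K ι (fun c => (j₁ : FI K) * M c) h1M).2.1
  have hd2M : Reps K (fun c => du K ((j₂ : FI K) * M c)) :=
    (hRR K ι (fun c => (j₂ : FI K) * M c) h2M).2.1
  have hV1 := VV_pos hj₁ a τ
  have hV2 := VV_pos hj₂ b τ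
  set V₁ := VV K j₁ a τ with hV1d
  set V₂ := VV K j₂ b τ with hV2d
  set Q : ℝ := C2 * κ ^ (-B) * (cw K * |(discr K : ℝ)| ^ ((1 + κ) / 2)) with hQdef
  set X : ℝ := (V₁ / V₂ + V₂ / V₁) ^ κ * (V₁ + V₂ + V₁ * V₂) with hXdef
  have hX : 0 ≤ X := by positivity
  have b1 := (hA κ hκ hκ1 K hK ι (fun c => (j₁ : FI K) * M c) h1M).1
  have b2 := (hA κ hκ hκ1 K hK ι (fun c => du K ((j₁ : FI K) * M c)) hd1M).2
  have b3 := (hA κ hκ hκ1 K hK ι (fun c => (j₂ : FI K) * M c) h2M).1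
  have b4 := (hA κ hκ hκ1 K hK ι (fun c => du K ((j₂ : FI K) * M c)) hd2M).2
  rw [← hQdef] at b1 b2 b3 b4
  have n1 : ∀ c, 0 ≤ ∫ z in Fd K, AK K κ ((j₁ : FI K) * M c) z := fun c =>
    integral_nonneg fun z => AK_nonneg hFP κ (h1M.1 c) z
  have n2 : ∀ c, 0 ≤ ∫ z in Fd K, AK K κ (du K ((j₁ : FI K) * M c)) (-z) := fun c =>
    integral_nonneg fun z => AK_nonneg hFP κ (hd1M.1 c) (-z)
  have n3 : ∀ c, 0 ≤ ∫ z in Fd K, AK K κ ((j₂ : FI K) * M c) z := fun c =>
    integral_nonneg fun z => AK_nonneg hFP κ (h2M.1 c) z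
  have n4 : ∀ c, 0 ≤ ∫ z in Fd K, AK K κ (du K ((j₂ : FI K) * M c)) (-z) := fun c =>
    integral_nonneg fun z => AK_nonneg hFP κ (hd2M.1 c) (-z)
  have hQ : 0 ≤ Q := (Finset.sum_nonneg fun c _ => n1 c).trans b1
  constructor
  · -- the products
    have hs : ∀ c, (∫⁻ z in Fd K, ENNReal.ofReal
        ((th K ((j₁ : FI K) * M c) (fun v => yM K (M c) τ z v + a v) - 1) *
        th K ((j₂ : FI K) * M c) (fun v => yM K (M c) τ z v + b v))) ≤
        ENNReal.ofReal (C1 * X * ((∫ z in Fd K, AK K κ ((j₁ : FI K) * M c) z) +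
          (∫ z in Fd K, AK K κ (du K ((j₁ : FI K) * M c)) (-z)) +
          (∫ z in Fd K, AK K κ ((j₂ : FI K) * M c) z) +
          ∫ z in Fd K, AK K κ (du K ((j₂ : FI K) * M c)) (-z))) := by
      intro c
      have hp : ∀ z : logSpace K, ENNReal.ofReal
          ((th K ((j₁ : FI K) * M c) (fun v => yM K (M c) τ z v + a v) - 1) *
          th K ((j₂ : FI K) * M c) (fun v => yM K (M c) τ z v + b v)) ≤
          ENNReal.ofReal (C1 * X) * (ENNReal.ofReal (AK K κ ((j₁ : FI K) * M c) (z + za a)) +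
            ENNReal.ofReal (AK K κ (du K ((j₁ : FI K) * M c)) (-(z + za a))) +
            ENNReal.ofReal (AK K κ ((j₂ : FI K) * M c) (z + za b)) +
            ENNReal.ofReal (AK K κ (du K ((j₂ : FI K) * M c)) (-(z + za b)))) := by
        intro z
        have m1 := AK_nonneg hFP κ (h1M.1 c) (z + za a)
        have m2 := AK_nonneg hFP κ (hd1M.1 c) (-(z + za a))
        have m3 := AK_nonneg hFP κ (h2M.1 c) (z + za b)
        have m4 := AK_nonneg hFP κ (hd2M.1 c) (-(z + za b))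
        rw [← ENNReal.ofReal_add m1 m2, ← ENNReal.ofReal_add (add_nonneg m1 m2) m3,
          ← ENNReal.ofReal_add (add_nonneg (add_nonneg m1 m2) m3) m4,
          ← ENNReal.ofReal_mul (by positivity), th_FT hj₁ (hM.1 c), th_FT hj₂ (hM.1 c)]
        refine ENNReal.ofReal_le_ofReal ?_
        refine (hP K hK ((j₁ : FI K) * M c) ((j₂ : FI K) * M c) (z + za a) (z + za b) V₁ V₂
          (h1M.1 c) (h2M.1 c) hV1 hV2).trans (le_of_eq ?_)
        rw [hXdef]
        ring
      refine (lintegral_mono fun z => hp z).trans ?_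
      have g1 : (j₁ : FI K) * M c ≠ 0 := h1M.1 c
      have g2 : (j₂ : FI K) * M c ≠ 0 := h2M.1 c
      have g3 : du K ((j₁ : FI K) * M c) ≠ 0 := hd1M.1 c
      have g4 : du K ((j₂ : FI K) * M c) ≠ 0 := hd2M.1 c
      rw [lint4 _ _ (AK_meas hFP hκ g1 (za a)).1 (AK_meas hFP hκ g3 (za a)).2
        (AK_meas hFP hκ g2 (za b)).1 (AK_meas hFP hκ g4 (za b)).2,
        (lint_AK hFD hFP hκ g1 (za a)).1, (lint_AK hFD hFP hκ g3 (za a)).2,
        (lint_AK hFD hFP hκ g2 (za b)).1, (lint_AK hFD hFP hκ g4 (za b)).2,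
        ← ENNReal.ofReal_add (n1 c) (n2 c),
        ← ENNReal.ofReal_add (add_nonneg (n1 c) (n2 c)) (n3 c),
        ← ENNReal.ofReal_add (add_nonneg (add_nonneg (n1 c) (n2 c)) (n3 c)) (n4 c),
        ← ENNReal.ofReal_mul (by positivity)]
    refine (Finset.sum_le_sum fun c _ => hs c).trans ?_
    rw [← ENNReal.ofReal_sum_of_nonneg fun c _ => mul_nonneg (by positivity)
      (add_nonneg (add_nonneg (add_nonneg (n1 c) (n2 c)) (n3 c)) (n4 c))]
    refine ENNReal.ofReal_le_ofReal ?_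
    rw [← Finset.mul_sum, Finset.sum_add_distrib, Finset.sum_add_distrib,
      Finset.sum_add_distrib]
    have h5 : C1 * X * ((∑ c, ∫ z in Fd K, AK K κ ((j₁ : FI K) * M c) z) +
        (∑ c, ∫ z in Fd K, AK K κ (du K ((j₁ : FI K) * M c)) (-z)) +
        (∑ c, ∫ z in Fd K, AK K κ ((j₂ : FI K) * M c) z) +
        ∑ c, ∫ z in Fd K, AK K κ (du K ((j₂ : FI K) * M c)) (-z)) ≤ C1 * X * (4 * Q) := by
      apply mul_le_mul_of_nonneg_left _ (by positivity)
      linarith
    refine h5.trans ?_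
    have h6 : (4 * C1 * (C2 * κ ^ (-B)) + 2 * (C2 * κ ^ (-B))) *
        (cw K * |(discr K : ℝ)| ^ ((1 + κ) / 2)) * X = C1 * X * (4 * Q) + 2 * Q * X := by
      rw [hQdef]
      ring
    rw [h6]
    have h7 : 0 ≤ 2 * Q * X := by positivity
    linarith
  · have hs : ∀ c, (∫⁻ z in Fd K, ENNReal.ofReal
        (th K ((j₁ : FI K) * M c) (fun v => yM K (M c) τ z v + a v) - 1)) ≤
        ENNReal.ofReal (2 * V₁ ^ (1 + κ) * ∫ z in Fd K, AK K κ ((j₁ : FI K) * M c) z) := by
      intro c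
      have hp : ∀ z : logSpace K, ENNReal.ofReal
          (th K ((j₁ : FI K) * M c) (fun v => yM K (M c) τ z v + a v) - 1) ≤
          ENNReal.ofReal (2 * V₁ ^ (1 + κ)) *
            ENNReal.ofReal (AK K κ ((j₁ : FI K) * M c) (z + za a)) := by
        intro z
        rw [← ENNReal.ofReal_mul (by positivity), th_FT hj₁ (hM.1 c)]
        exact ENNReal.ofReal_le_ofReal (FT_le hFP hκ hκ1 (h1M.1 c) _ hV1)
      refine (lintegral_mono fun z => hp z).trans ?_
      have g1 : (j₁ : FI K) * M c ≠ 0 := h1M.1 c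
      rw [lintegral_const_mul _ (AK_meas hFP hκ g1 (za a)).1,
        (lint_AK hFD hFP hκ g1 (za a)).1, ← ENNReal.ofReal_mul (by positivity)]
    refine (Finset.sum_le_sum fun c _ => hs c).trans ?_
    rw [← ENNReal.ofReal_sum_of_nonneg fun c _ => mul_nonneg (by positivity) (n1 c)]
    refine ENNReal.ofReal_le_ofReal ?_
    rw [← Finset.mul_sum]
    have hW : 0 ≤ V₁ ^ (1 + κ) := Real.rpow_nonneg hV1.le _
    refine (mul_le_mul_of_nonneg_left b1 (by positivity)).trans ?_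
    have h6 : (4 * C1 * (C2 * κ ^ (-B)) + 2 * (C2 * κ ^ (-B))) *
        (cw K * |(discr K : ℝ)| ^ ((1 + κ) / 2)) * V₁ ^ (1 + κ) =
        4 * C1 * Q * V₁ ^ (1 + κ) + 2 * V₁ ^ (1 + κ) * Q := by
      rw [hQdef]
      ring
    rw [h6]
    have h7 : 0 ≤ 4 * C1 * Q * V₁ ^ (1 + κ) := by positivity
    linarith

end Pool.Agent.H59.DW
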